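import Pool.Agent.H21R2.Criterion
import Pool.Agent.Results.MP_743583_al.FreeProductActions

/-!
# A convenient criterion for soficity
-/

set_option autoImplicit false

namespace Pool.Agent.X196.Halo

open Finset Pool.Agent.H21R2
open Pool.Agent.Results.MP_743583_al.FreeProductActions (frac hdist frac_preimage hdist_eq_frac)

universe u

/-- soficity can be checked for one nontrivial element at a time, on arbitrary finite sets -/
theorem isSofic_of_local {G : Type u} [Group G]
    (h : ∀ K : Finset G, 1 ∈ K → ∀ g ∈ K, g ≠ 1 → ∀ ε : ℝ, 0 < ε →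
      ∃ (Y : Type) (_ : Finite Y) (Φ : G → Equiv.Perm Y), Φ 1 = 1 ∧
        1 / 2 ≤ frac {y | Φ g y ≠ y} ∧
        ∀ a ∈ K, ∀ b ∈ K, a * b ∈ K → frac {y | Φ (a * b) y ≠ Φ a (Φ b y)} ≤ ε) :
    IsSofic G := by
  classical
  apply isSofic_of_weighted.{0}
  intro A h1 g hg hg1 ε hε
  obtain ⟨Y, hY, Φ, hΦ1, hΦ2, hΦ3⟩ := h A h1 g hg hg1 (ε / 2) (by positivity)
  have := Fintype.ofFinite Y
  have hYpos : 0 < Nat.card Y := by
    rcases Nat.eq_zero_or_pos (Nat.card Y) with h0 | h0
    · exfalso
      unfold frac at hΦ2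
      rw [h0] at hΦ2
      norm_num at hΦ2
    · exact h0
  have hY0 : (0 : ℝ) < Nat.card Y := by exact_mod_cast hYpos
  let f : Y →₀ ℝ := Finsupp.onFinset univ (fun _ => 1) (fun _ _ => mem_univ _)
  have hf : ∀ y, f y = 1 := fun y => rfl
  have hmass : ∀ P : Y → Prop, mass f P = frac {y | P y} * Nat.card Y := by
    intro P
    rw [mass_eq_sum f P univ (fun _ _ => mem_univ _)]
    simp only [hf]
    unfold frac
    rw [div_mul_cancel₀ _ hY0.ne', Set.ncard_eq_toFinset_card']
    simp
  have hbig : (Nat.card Y : ℝ) / 2 ≤ mass f (fun y => Φ g y ≠ y) := by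
    rw [hmass]
    nlinarith
  refine ⟨Y, Φ, f, hΦ1, lt_of_lt_of_le (by positivity) hbig, ?_, ?_⟩
  · intro a _
    have : energy f (Φ a) = 0 := by
      unfold energy
      simp [hf]
    rw [this]
    have : (0 : ℝ) ≤ mass f (fun y => Φ g y ≠ y) := le_trans (by positivity) hbig
    positivity
  · intro a ha b hb hab
    have h3 := hΦ3 a ha b hb hab
    rw [hmass (fun y => Φ (a * b) y ≠ Φ a (Φ b y))]
    calc frac {y | Φ (a * b) y ≠ Φ a (Φ b y)} * Nat.card Y ≤ ε / 2 * Nat.card Y := by gcongr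
      _ = ε * (Nat.card Y / 2) := by ring
      _ ≤ _ := mul_le_mul_of_nonneg_left hbig hε.le

/-- transport of a permutation model to `Fin n` -/
theorem exists_model {G : Type u} [Group G] (hG : IsSofic G) (K : Finset G) (ε : ℝ) (hε : 0 < ε) :
    ∃ (n : ℕ) (φ : G → Equiv.Perm (Fin n)), 1 ≤ n ∧ φ 1 = 1 ∧
      (∀ a ∈ K, ∀ b ∈ K, frac {y | φ (a * b) y ≠ φ a (φ b y)} ≤ ε) ∧
      ∀ a ∈ K, a ≠ 1 → 1 - ε ≤ frac {y | φ a y ≠ y} := by
  classical
  obtain ⟨n, hn, φ, h1, h2, h3⟩ := hG (insert 1 (K ∪ (K ×ˢ K).image fun p => p.1 * p.2))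
    (mem_insert_self _ _) ε hε
  have hh : ∀ σ τ : Equiv.Perm (Fin n), frac {y | σ y ≠ τ y} = hamm σ τ := by
    intro σ τ
    unfold frac hamm
    have e : ({y | σ y ≠ τ y} : Set (Fin n)).toFinset = univ.filter fun i => σ i ≠ τ i := by
      ext y
      simp
    rw [Set.ncard_eq_toFinset_card', Nat.card_eq_fintype_card, Fintype.card_fin, e]
  refine ⟨n, φ, hn, h1, ?_, ?_⟩
  · intro a ha b hb
    have := h2 a (mem_insert_of_mem (mem_union_left _ ha)) b
      (mem_insert_of_mem (mem_union_left _ hb))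
      (mem_insert_of_mem (mem_union_right _ (mem_image.2 ⟨(a, b), mem_product.2 ⟨ha, hb⟩, rfl⟩)))
    have e := hh (φ (a * b)) (φ a * φ b)
    simp only [Equiv.Perm.coe_mul, Function.comp_apply] at e
    rw [e]
    exact this.le
  · intro a ha ha1
    have := h3 a (mem_insert_of_mem (mem_union_left _ ha)) ha1
    have e := hh (φ a) 1
    simp only [Equiv.Perm.coe_one, id_eq] at e
    rw [e]
    exact this

/-! ### Fractions -/

theorem frac_nonneg {A : Type} (C : Set A) : 0 ≤ frac C := by
  unfold frac; positivity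

theorem frac_mono {A : Type} [Finite A] {C D : Set A} (h : C ⊆ D) : frac C ≤ frac D := by
  unfold frac
  apply div_le_div_of_nonneg_right _ (Nat.cast_nonneg _)
  exact_mod_cast Set.ncard_le_ncard h (Set.toFinite _)

theorem frac_union {A : Type} [Finite A] (C D : Set A) : frac (C ∪ D) ≤ frac C + frac D := by
  unfold frac
  rw [← add_div]
  apply div_le_div_of_nonneg_right _ (Nat.cast_nonneg _)
  exact_mod_cast Set.ncard_union_le _ _

theorem frac_compl {A : Type} [Finite A] [Nonempty A] (C : Set A) : frac Cᶜ = 1 - frac C := by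
  unfold frac
  have h := Set.ncard_add_ncard_compl C
  have hA : (0 : ℝ) < Nat.card A := by exact_mod_cast Nat.card_pos
  have h2 : (C.ncard : ℝ) + (Cᶜ.ncard : ℝ) = Nat.card A := by exact_mod_cast h
  field_simp
  linarith

theorem frac_preimage_perm {A : Type} (σ : Equiv.Perm A) (C : Set A) :
    frac (σ ⁻¹' C) = frac C := by
  unfold frac
  rw [← Equiv.image_symm_eq_preimage, Set.ncard_image_of_injective _ σ.symm.injective]

theorem frac_biUnion {A ι : Type} [Finite A] (s : Finset ι) (C : ι → Set A) (δ : ℝ)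
    (h : ∀ i ∈ s, frac (C i) ≤ δ) : frac (⋃ i ∈ s, C i) ≤ s.card * δ := by
  classical
  induction s using Finset.induction_on with
  | empty => simp [frac]
  | insert a s ha ih =>
    rw [Finset.set_biUnion_insert, Finset.card_insert_of_notMem ha]
    push_cast
    refine (frac_union _ _).trans ?_
    have h1 := h a (Finset.mem_insert_self _ _)
    have h2 := ih fun i hi => h i (Finset.mem_insert_of_mem hi)
    linarith

end Pool.Agent.X196.Halo
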